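import Pool.Agent.Lib.MP_0e7911_co_h93.LineSum
import Pool.Agent.Lib.MP_0e7911_co_h89.Stat
import Pool.Agent.Lib.MP_0e7911_co_h89.Cst

/-!
# C7: the line sums are generating functions of labelled Dyck paths
-/

set_option autoImplicit false

namespace Pool.Agent.Lib.MP_0e7911_co_full

open Finset Pool.Agent.Lib.MP_0e7911_co_h56 Pool.Agent.Lib.MP_0e7911_co_h50
open Pool.Agent.Lib.MP_0e7911_co_rect hiding qint

variable {K : Type*} [Field K]

/-- C7: the line sums are the generating functions of the labelled Dyck paths which avoid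
the first `i` joints -/
theorem lineSum_eq (q t : K) (_hq : q ≠ 0) (_ht : t ≠ 0) (a b d i N : ℕ) (ha : 0 < a) (hb : 0 < b)
    (hab : Nat.Coprime a b) (hi : i < d) [NeZero (b * d)] :
    MvPolynomial.C (t ^ i) * lineSum q t (a * d) (b * d) N (Bht a b i) =
      ∑ p ∈ (LRD (a * d) (b * d) N).filter (fun p => Avoid i p.1), wt q t p :=
  MP_0e7911_co_h93.lineSum_eq_of q t a b d i N ha hb hab hi
    (fun x w hx hw hD => MP_0e7911_co_h89.stat_eq x w hx hw hD)
    (fun x hx hD => MP_0e7911_co_h89.cst_eq (Nat.mul_pos ha (by omega)) (Nat.mul_pos hb (by omega))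
      x hx hD)

end Pool.Agent.Lib.MP_0e7911_co_full
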