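import Pool.Agent.Lib.MP_0e7911_co_full.ChainDefs
import Pool.Agent.Lib.MP_0e7911_co_h56.DinvEq

/-!
# C7a: the line sums are generating functions of labelled Dyck paths
-/

set_option autoImplicit false

namespace Pool.Agent.Lib.MP_0e7911_co_h93

open Finset Pool.Agent.Lib.MP_0e7911_co_h56 Pool.Agent.Lib.MP_0e7911_co_h50
open Pool.Agent.Lib.MP_0e7911_co_rect hiding qint
open Pool.Agent.Lib.MP_0e7911_co_full

section bij

variable {m n N : ℕ}

/-- labelled path -/
def IsLab (x : Fin n → Fin m) (w : Fin n → Fin N) : Prop :=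
  Monotone x ∧ ∀ i j, i < j → x i = x j → w i < w j

/-- the steps in lexicographic order -/
def lx (x : Fin n → Fin m) (w : Fin n → Fin N) (i : Fin n) : Fin m ×ₗ Fin N := toLex (x i, w i)

lemma lx_strictMono {x : Fin n → Fin m} {w : Fin n → Fin N} (h : IsLab x w) :
    StrictMono (lx x w) := by
  intro i j hij
  rw [lx, lx, Prod.Lex.toLex_lt_toLex]
  rcases (h.1 hij.le).lt_or_eq with h1 | h1
  · exact Or.inl h1
  · exact Or.inr ⟨h1, h.2 i j hij h1⟩

lemma isLab_of_strictMono {x : Fin n → Fin m} {w : Fin n → Fin N} (h : StrictMono (lx x w)) :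
    IsLab x w := by
  constructor
  · intro i j hij
    rcases hij.lt_or_eq with h1 | h1
    · have h2 := h h1
      rw [lx, lx, Prod.Lex.toLex_lt_toLex] at h2
      rcases h2 with h2 | h2
      · exact h2.le
      · exact h2.1.le
    · rw [h1]
  · intro i j hij he
    have h2 := h hij
    rw [lx, lx, Prod.Lex.toLex_lt_toLex] at h2
    rcases h2 with h2 | h2
    · simp only [he, lt_irrefl] at h2
    · exact h2.2

lemma mem_colsOf {x : Fin n → Fin m} {w : Fin n → Fin N} {α : Fin N} {c : Fin m} :
    c ∈ colsOf x w α ↔ ∃ i, x i = c ∧ w i = α := by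
  unfold colsOf
  simp

lemma mem_range_lx {x : Fin n → Fin m} {w : Fin n → Fin N} (z : Fin m ×ₗ Fin N) :
    z ∈ Set.range (lx x w) ↔ (ofLex z).1 ∈ colsOf x w (ofLex z).2 := by
  rw [mem_colsOf]
  constructor
  · rintro ⟨i, rfl⟩
    exact ⟨i, rfl, rfl⟩
  · rintro ⟨i, h1, h2⟩
    refine ⟨i, ?_⟩
    rw [lx, h1, h2]
    rfl

lemma lab_inj {x x' : Fin n → Fin m} {w w' : Fin n → Fin N} (h : IsLab x w) (h' : IsLab x' w')
    (he : colsOf x w = colsOf x' w') : x = x' ∧ w = w' := by
  have key : lx x w = lx x' w' := by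
    rw [← (lx_strictMono h).range_inj (lx_strictMono h')]
    ext z
    rw [mem_range_lx, mem_range_lx, he]
  constructor
  · funext i
    exact congrArg (fun z => (ofLex z).1) (congrFun key i)
  · funext i
    exact congrArg (fun z => (ofLex z).2) (congrFun key i)

lemma hgt_zero (x : Fin n → Fin m) : hgt x 0 = 0 := by
  unfold hgt
  simp

lemma hgt_last (x : Fin n → Fin m) : hgt x m = n := by
  unfold hgt
  rw [filter_true_of_mem (fun i _ => (x i).isLt), card_univ, Fintype.card_fin]

lemma card_col {x : Fin n → Fin m} {w : Fin n → Fin N} (h : IsLab x w) (c : Fin m) :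
    (univ.filter (fun i : Fin n => x i = c)).card
      = (univ.filter (fun β : Fin N => c ∈ colsOf x w β)).card := by
  have e : univ.filter (fun β : Fin N => c ∈ colsOf x w β)
      = (univ.filter (fun i : Fin n => x i = c)).image w := by
    ext β
    simp only [mem_filter, mem_univ, true_and, mem_image, mem_colsOf]
  rw [e, card_image_of_injOn]
  intro i hi j hj hij
  simp only [coe_filter, mem_univ, true_and, Set.mem_ofPred_eq] at hi hj
  by_contra hne
  rcases lt_or_gt_of_ne hne with h1 | h1
  · exact absurd hij (h.2 i j h1 (hi.trans hj.symm)).ne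
  · exact absurd hij (h.2 j i h1 (hj.trans hi.symm)).ne'

lemma hgt_succ {x : Fin n → Fin m} {w : Fin n → Fin N} (h : IsLab x w) (c : Fin m) :
    hgt x ((c : ℕ) + 1) = hgt x c + (univ.filter (fun β : Fin N => c ∈ colsOf x w β)).card := by
  rw [← card_col h, hgt, hgt, ← card_union_of_disjoint]
  · congr 1
    ext i
    simp only [mem_filter, mem_univ, true_and, mem_union, Fin.ext_iff]
    omega
  · rw [disjoint_filter]
    intro i _ h1 h2
    rw [Fin.ext_iff] at h2
    omega

/-- existence of the labelled path with given columns -/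
lemma exists_lab (S : Fin N → Finset (Fin m))
    (hS : ∑ c : Fin m, (univ.filter (fun β : Fin N => c ∈ S β)).card = n) :
    ∃ (x : Fin n → Fin m) (w : Fin n → Fin N), IsLab x w ∧ colsOf x w = S := by
  classical
  set T : Finset (Fin m ×ₗ Fin N) := univ.filter (fun z => (ofLex z).1 ∈ S (ofLex z).2) with hT
  have hcard : T.card = n := by
    rw [← hS, hT, card_filter]
    rw [← Equiv.sum_comp toLex]
    rw [Fintype.sum_prod_type]
    refine sum_congr rfl fun c _ => ?_
    rw [card_filter]
    rfl
  set e := T.orderEmbOfFin hcard with he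
  have hlx : lx (fun i => (ofLex (e i)).1) (fun i => (ofLex (e i)).2) = e := by
    funext i
    rfl
  refine ⟨fun i => (ofLex (e i)).1, fun i => (ofLex (e i)).2, ?_, ?_⟩
  · apply isLab_of_strictMono
    rw [hlx]
    exact e.strictMono
  · funext α
    ext c
    have h1 := mem_range_lx (x := fun i => (ofLex (e i)).1) (w := fun i => (ofLex (e i)).2)
      (toLex (c, α))
    rw [hlx, he, Finset.range_orderEmbOfFin] at h1
    rw [ofLex_toLex] at h1
    rw [← h1, mem_coe, hT, mem_filter]
    simp

/-- the steps below the height of the path -/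
lemma lt_hgt_iff {x : Fin n → Fin m} (hx : Monotone x) (i : Fin n) (c : ℕ) :
    (i : ℕ) < hgt x c ↔ (x i : ℕ) < c := by
  constructor
  · intro h
    by_contra hcon
    rw [not_lt] at hcon
    have h1 : univ.filter (fun j : Fin n => (x j : ℕ) < c) ⊆ Finset.Iio i := by
      intro j hj
      rw [mem_filter] at hj
      rw [mem_Iio]
      by_contra h2
      rw [not_lt] at h2
      have h3 : (x i : ℕ) ≤ x j := hx h2
      omega
    have h2 := card_le_card h1
    rw [Fin.card_Iio] at h2
    unfold hgt at h
    omega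
  · intro h
    have h1 : Finset.Iic i ⊆ univ.filter (fun j : Fin n => (x j : ℕ) < c) := by
      intro j hj
      rw [mem_Iic] at hj
      rw [mem_filter]
      have h3 : (x j : ℕ) ≤ x i := hx hj
      exact ⟨mem_univ _, by omega⟩
    have h2 := card_le_card h1
    rw [Fin.card_Iic] at h2
    unfold hgt
    omega

lemma hgt_le (x : Fin n → Fin m) (c : ℕ) : hgt x c ≤ n := by
  unfold hgt
  exact (card_filter_le _ _).trans (by rw [card_univ, Fintype.card_fin])

lemma hgt_mono (x : Fin n → Fin m) {c c' : ℕ} (h : c ≤ c') : hgt x c ≤ hgt x c' := by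
  unfold hgt
  refine card_le_card fun i hi => ?_
  rw [mem_filter] at *
  exact ⟨hi.1, by omega⟩

end bij

section cond

variable {a b d i N : ℕ}

/-- the rounded up height of the diagonal -/
def cl (a b l : ℕ) : ℕ := (b * l + a - 1) / a

lemma cl_le_iff (ha : 0 < a) (l H : ℕ) : cl a b l ≤ H ↔ b * l ≤ a * H := by
  unfold cl
  rw [← Nat.lt_succ_iff, Nat.div_lt_iff_lt_mul ha, Nat.succ_mul, mul_comm H a]
  omega

lemma bht_le_iff (ha : 0 < a) (l H : ℕ) :
    Bht a b i l ≤ H ↔ b * l ≤ a * H ∧ (0 < l → l ≤ i * a → b * l < a * H) := by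
  unfold Bht
  rcases Nat.eq_zero_or_pos l with h | h
  · subst h
    simp
  · rw [if_neg h.ne']
    by_cases h1 : l ≤ i * a
    · rw [if_pos h1, Nat.add_one_le_iff, Nat.div_lt_iff_lt_mul ha, mul_comm H a]
      constructor
      · intro h2
        exact ⟨h2.le, fun _ _ => h2⟩
      · intro h2
        exact h2.2 h h1
    · rw [if_neg h1]
      have := cl_le_iff (b := b) ha l H
      unfold cl at this
      rw [this]
      constructor
      · intro h2
        exact ⟨h2, fun _ h3 => absurd h3 h1⟩
      · intro h2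
        exact h2.1

/-- the condition on the heights: Dyck path which avoids the first joints -/
lemma bht_iff (ha : 0 < a) (hb : 0 < b) (hab : Nat.Coprime a b) (hi : i < d)
    {x : Fin (b * d) → Fin (a * d)} (hx : Monotone x) :
    (∀ c ≤ a * d, Bht a b i c ≤ hgt x c) ↔ (IsDyck x ∧ Avoid i x) := by
  have hd : 0 < d := by omega
  have hg : b * d / Nat.gcd (a * d) (b * d) = b := by
    rw [Nat.gcd_mul_right, hab.gcd_eq_one, one_mul, Nat.mul_div_cancel _ hd]
  simp only [bht_le_iff ha]
  unfold IsDyck Avoid lam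
  rw [hg]
  constructor
  · intro h
    refine ⟨fun u => ?_, fun u hu0 hu heq => ?_⟩
    · have h1 := (h (x u) (x u).isLt.le).1
      have h2 : hgt x (x u) ≤ (u : ℕ) := by
        by_contra hcon
        rw [not_le, lt_hgt_iff hx] at hcon
        exact lt_irrefl _ hcon
      calc b * d * (x u : ℕ) = d * (b * x u) := by ring
        _ ≤ d * (a * hgt x (x u)) := Nat.mul_le_mul_left _ h1
        _ ≤ d * (a * u) := Nat.mul_le_mul_left _ (Nat.mul_le_mul_left _ h2)
        _ = a * d * u := by ring
    · -- `m u = n x_u`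
      have h0 : a * (u : ℕ) = b * (x u : ℕ) := by
        have h1 : ((a * d : ℕ) : ℤ) * (u : ℕ) = ((b * d : ℕ) : ℤ) * (x u : ℕ) := by
          push_cast at heq ⊢
          linarith
        have h2 : a * d * (u : ℕ) = b * d * (x u : ℕ) := by exact_mod_cast h1
        have h3 : d * (a * (u : ℕ)) = d * (b * (x u : ℕ)) := by
          calc d * (a * (u : ℕ)) = a * d * u := by ring
            _ = b * d * (x u : ℕ) := h2
            _ = d * (b * (x u : ℕ)) := by ring
        exact Nat.eq_of_mul_eq_mul_left hd h3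
      have hx0 : 0 < (x u : ℕ) := by
        by_contra hcon
        have : (x u : ℕ) = 0 := by omega
        rw [this, mul_zero] at h0
        have : 0 < a * (u : ℕ) := Nat.mul_pos ha hu0
        omega
      have hxi : (x u : ℕ) ≤ i * a := by
        have h1 : b * (x u : ℕ) ≤ b * (i * a) := by
          rw [← h0]
          calc a * (u : ℕ) ≤ a * (i * b) := Nat.mul_le_mul_left _ hu
            _ = b * (i * a) := by ring
        exact Nat.le_of_mul_le_mul_left h1 hb
      have h1 := (h (x u) (x u).isLt.le).2 hx0 hxi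
      have h2 : hgt x (x u) ≤ (u : ℕ) := by
        by_contra hcon
        rw [not_le, lt_hgt_iff hx] at hcon
        exact lt_irrefl _ hcon
      have h3 : a * hgt x (x u) ≤ a * u := Nat.mul_le_mul_left _ h2
      omega
  · rintro ⟨hD, hA⟩ c hc
    have h1 : b * c ≤ a * hgt x c := by
      rcases (hgt_le x c).lt_or_eq with h | h
      · -- the first step which is not to the left of `c`
        have h2 : c ≤ (x ⟨hgt x c, h⟩ : ℕ) := by
          by_contra hcon
          rw [not_le, ← lt_hgt_iff hx] at hcon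
          exact lt_irrefl _ hcon
        have h3 := hD ⟨hgt x c, h⟩
        have h4 : d * (b * c) ≤ d * (a * hgt x c) := by
          calc d * (b * c) = b * d * c := by ring
            _ ≤ b * d * (x ⟨hgt x c, h⟩ : ℕ) := Nat.mul_le_mul_left _ h2
            _ ≤ a * d * hgt x c := h3
            _ = d * (a * hgt x c) := by ring
        exact Nat.le_of_mul_le_mul_left h4 hd
      · rw [h]
        calc b * c ≤ b * (a * d) := Nat.mul_le_mul_left _ hc
          _ = a * (b * d) := by ring
    refine ⟨h1, fun hc0 hci => lt_of_le_of_ne h1 fun heq => ?_⟩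
    have hu : hgt x c ≤ i * b := by
      have h2 : a * hgt x c ≤ a * (i * b) := by
        rw [← heq]
        calc b * c ≤ b * (i * a) := Nat.mul_le_mul_left _ hci
          _ = a * (i * b) := by ring
      exact Nat.le_of_mul_le_mul_left h2 ha
    have hu0 : 0 < hgt x c := by
      by_contra hcon
      have : hgt x c = 0 := by omega
      rw [this, mul_zero] at heq
      have : 0 < b * c := Nat.mul_pos hb hc0
      omega
    have hun : hgt x c < b * d := by
      calc hgt x c ≤ i * b := hu
        _ < d * b := Nat.mul_lt_mul_of_pos_right hi hb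
        _ = b * d := mul_comm _ _
    have h2 : c ≤ (x ⟨hgt x c, hun⟩ : ℕ) := by
      by_contra hcon
      rw [not_le, ← lt_hgt_iff hx] at hcon
      exact lt_irrefl _ hcon
    have h3 := hD ⟨hgt x c, hun⟩
    have h4 : (x ⟨hgt x c, hun⟩ : ℕ) = c := by
      refine le_antisymm ?_ h2
      have h5 : b * d * (x ⟨hgt x c, hun⟩ : ℕ) ≤ b * d * c := by
        calc b * d * (x ⟨hgt x c, hun⟩ : ℕ) ≤ a * d * hgt x c := h3
          _ = d * (a * hgt x c) := by ring
          _ = d * (b * c) := by rw [heq]
          _ = b * d * c := by ring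
      exact Nat.le_of_mul_le_mul_left h5 (Nat.mul_pos hb hd)
    refine hA ⟨hgt x c, hun⟩ hu0 hu ?_
    simp only [h4]
    have h6 : a * d * hgt x c = b * d * c := by
      calc a * d * hgt x c = d * (a * hgt x c) := by ring
        _ = d * (b * c) := by rw [heq]
        _ = b * d * c := by ring
    have h7 : ((a * d : ℕ) : ℤ) * (hgt x c : ℕ) = ((b * d : ℕ) : ℤ) * (c : ℕ) := by exact_mod_cast h6
    rw [h7, sub_self]

/-! ### the area -/

lemma bht_eq (ha : 0 < a) (hab : Nat.Coprime a b) (l : ℕ) :
    Bht a b i l = cl a b l + if 0 < l ∧ l ≤ i * a ∧ a ∣ l then 1 else 0 := by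
  unfold Bht cl
  rcases Nat.eq_zero_or_pos l with h | h
  · subst h
    simp only [if_true, mul_zero, zero_add, lt_irrefl, false_and, if_false]
    rw [Nat.div_eq_of_lt (by omega)]
  · rw [if_neg h.ne']
    by_cases h1 : l ≤ i * a
    · rw [if_pos h1]
      by_cases h2 : a ∣ l
      · rw [if_pos ⟨h, h1, h2⟩]
        obtain ⟨k, rfl⟩ := h2
        have e1 : b * (a * k) = a * (b * k) := by ring
        rw [e1, Nat.mul_div_cancel_left _ ha, Nat.add_sub_assoc (by omega), Nat.mul_add_div ha,
          Nat.div_eq_of_lt (by omega : a - 1 < a), add_zero]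
      · rw [if_neg (fun h3 => h2 h3.2.2), add_zero]
        have h3 : ¬ a ∣ b * l := fun h4 => h2 (hab.dvd_of_dvd_mul_left h4)
        have h4 : 0 < (b * l) % a := by
          rw [Nat.pos_iff_ne_zero]
          intro h5
          exact h3 (Nat.dvd_of_mod_eq_zero h5)
        have h5 := Nat.div_add_mod (b * l) a
        have h6 : b * l + a - 1 = a * (b * l / a + 1) + ((b * l) % a - 1) := by
          rw [Nat.mul_add, mul_one]
          omega
        have h7 : (b * l % a - 1) / a = 0 := by
          apply Nat.div_eq_of_lt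
          have := Nat.mod_lt (b * l) ha
          omega
        rw [h6, Nat.mul_add_div ha, h7, add_zero]
    · rw [if_neg h1, if_neg (fun h2 => h1 h2.2.1), add_zero]

/-- number of multiples -/
lemma sum_mult (ha : 0 < a) (hi : i < d) :
    ∑ l ∈ range (a * d + 1), (if 0 < l ∧ l ≤ i * a ∧ a ∣ l then 1 else 0) = i := by
  rw [← card_filter]
  have e : (range (a * d + 1)).filter (fun l => 0 < l ∧ l ≤ i * a ∧ a ∣ l)
      = (range i).image (fun k => a * (k + 1)) := by
    ext l
    rw [mem_filter, mem_image, mem_range]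
    constructor
    · rintro ⟨h1, h2, h3, ⟨k, rfl⟩⟩
      have hk : k ≤ i := by
        rw [mul_comm i a] at h3
        exact Nat.le_of_mul_le_mul_left h3 ha
      have hk0 : 0 < k := Nat.pos_of_mul_pos_left h2
      refine ⟨k - 1, ?_, ?_⟩
      · rw [mem_range]; omega
      · congr 1; omega
    · rintro ⟨k, hk, rfl⟩
      rw [mem_range] at hk
      have h1 : a * (k + 1) ≤ a * i := Nat.mul_le_mul_left _ hk
      have h2 : a * i ≤ a * d := Nat.mul_le_mul_left _ hi.le
      refine ⟨by omega, Nat.mul_pos ha (Nat.succ_pos k), ?_, Dvd.intro _ rfl⟩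
      rw [mul_comm i a]
      exact h1
  rw [e, card_image_of_injective, card_range]
  intro k k' h
  simp only at h
  have := Nat.eq_of_mul_eq_mul_left ha h
  omega

/-- the heights, summed by rows -/
lemma sum_hgt {m n : ℕ} (x : Fin n → Fin m) :
    ∑ c ∈ range (m + 1), hgt x c = ∑ u : Fin n, (m - (x u : ℕ)) := by
  unfold hgt
  simp only [card_filter]
  rw [sum_comm]
  refine sum_congr rfl fun u _ => ?_
  rw [← card_filter]
  have e : (range (m + 1)).filter (fun c => (x u : ℕ) < c) = Finset.Ioc (x u : ℕ) m := by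
    ext c
    rw [mem_filter, mem_range, mem_Ioc]
    omega
  rw [e, Nat.card_Ioc]

lemma sum_cl (ha : 0 < a) (hb : 0 < b) :
    ∑ c ∈ range (a * d + 1), cl a b c = ∑ u : Fin (b * d), (a * d - a * (u : ℕ) / b) := by
  have e1 : ∀ c ∈ range (a * d + 1), cl a b c
      = ∑ u : Fin (b * d), if a * (u : ℕ) / b < c then 1 else 0 := by
    intro c hc
    rw [mem_range] at hc
    rw [← card_filter]
    have hle : cl a b c ≤ b * d := by
      rw [cl_le_iff ha]
      calc b * c ≤ b * (a * d) := Nat.mul_le_mul_left _ (by omega)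
        _ = a * (b * d) := by ring
    have e2 : univ.filter (fun u : Fin (b * d) => a * (u : ℕ) / b < c)
        = univ.filter (fun u : Fin (b * d) => (u : ℕ) < cl a b c) := by
      ext u
      rw [mem_filter, mem_filter, Nat.div_lt_iff_lt_mul hb]
      have := cl_le_iff (b := b) ha c (u : ℕ)
      constructor
      · rintro ⟨h1, h2⟩
        refine ⟨h1, ?_⟩
        by_contra hcon
        rw [not_lt, this] at hcon
        rw [mul_comm c b] at h2
        omega
      · rintro ⟨h1, h2⟩
        refine ⟨h1, ?_⟩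
        by_contra hcon
        rw [not_lt, mul_comm c b, ← this] at hcon
        omega
    rw [e2]
    have e3 : (univ.filter (fun u : Fin (b * d) => (u : ℕ) < cl a b c)).card
        = (Finset.range (cl a b c)).card := by
      refine card_bij (fun u _ => (u : ℕ)) ?_ ?_ ?_
      · intro u hu
        rw [mem_filter] at hu
        exact mem_range.mpr hu.2
      · intro u _ v _ h
        exact Fin.ext h
      · intro k hk
        rw [mem_range] at hk
        exact ⟨⟨k, by omega⟩, by simpa using hk, rfl⟩
    rw [e3, card_range]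
  rw [sum_congr rfl e1, sum_comm]
  refine sum_congr rfl fun u _ => ?_
  rw [← card_filter]
  have e : (range (a * d + 1)).filter (fun c => a * (u : ℕ) / b < c)
      = Finset.Ioc (a * (u : ℕ) / b) (a * d) := by
    ext c
    rw [mem_filter, mem_range, mem_Ioc]
    omega
  rw [e, Nat.card_Ioc]

lemma shift_eq_zero {m n : ℕ} [NeZero n] {x : Fin n → Fin m} (hD : IsDyck x) :
    shift x = 0 := by
  unfold shift
  rw [neg_eq_zero]
  have hn : (0 : ℚ) < (n : ℚ) := by exact_mod_cast NeZero.pos n
  have h0 : ∀ u, 0 ≤ level x u := by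
    intro u
    unfold level
    have h1 := hD u
    rw [sub_nonneg, le_div_iff₀ hn]
    have h2 : ((n * (x u : ℕ) : ℕ) : ℚ) ≤ ((m * (u : ℕ) : ℕ) : ℚ) := by exact_mod_cast h1
    push_cast at h2
    linarith
  apply le_antisymm
  · refine (Finset.inf'_le _ (mem_univ (0 : Fin n))).trans ?_
    unfold level
    have h1 := hD 0
    have h2 : (x 0 : ℕ) = 0 := by
      have h3 : n * (x 0 : ℕ) ≤ 0 := by simpa using h1
      have h4 := NeZero.pos n
      rcases Nat.eq_zero_or_pos (x 0 : ℕ) with h | h
      · exact h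
      · have := Nat.mul_pos h4 h
        omega
    rw [h2]
    simp
  · rw [Finset.le_inf'_iff]
    intro u _
    exact h0 u

lemma area_eq (ha : 0 < a) (hb : 0 < b) (hd : 0 < d) [NeZero (b * d)]
    {x : Fin (b * d) → Fin (a * d)} (hD : IsDyck x) :
    area x = ∑ u : Fin (b * d), (((a * (u : ℕ) / b : ℕ) : ℤ) - (x u : ℕ)) := by
  unfold area
  rw [shift_eq_zero hD]
  refine sum_congr rfl fun u _ => ?_
  rw [add_zero]
  unfold level
  have e1 : ((a * d : ℕ) : ℚ) * ((u : ℕ) : ℚ) / ((b * d : ℕ) : ℚ) = ((a * (u : ℕ) : ℕ) : ℚ) / (b : ℕ) := by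
    have h1 : (b : ℚ) ≠ 0 := by exact_mod_cast hb.ne'
    have h2 : (d : ℚ) ≠ 0 := by exact_mod_cast hd.ne'
    push_cast
    field_simp
  rw [e1, Int.floor_sub_natCast]
  congr 1
  rw [← Nat.floor_div_eq_div (K := ℚ), ← Int.natCast_floor_eq_floor (by positivity)]

/-- the exponent of `t` -/
lemma area_sum (ha : 0 < a) (hb : 0 < b) (hab : Nat.Coprime a b) (hi : i < d) [NeZero (b * d)]
    {x : Fin (b * d) → Fin (a * d)} (hx : Monotone x) (hD : IsDyck x) (hA : Avoid i x) :
    area x = ((i + ∑ c : Fin (a * d + 1), (hgt x c - Bht a b i c) : ℕ) : ℤ) := by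
  have hd : 0 < d := by omega
  have hB := (bht_iff ha hb hab hi hx).mpr ⟨hD, hA⟩
  rw [area_eq ha hb hd hD]
  have e1 : ∑ c : Fin (a * d + 1), (hgt x c - Bht a b i c)
      = ∑ c ∈ range (a * d + 1), (hgt x c - Bht a b i c) :=
    Fin.sum_univ_eq_sum_range (fun c => hgt x c - Bht a b i c) (a * d + 1)
  rw [e1]
  push_cast
  have e2 : ∑ c ∈ range (a * d + 1), ((hgt x c - Bht a b i c : ℕ) : ℤ)
      = ((∑ c ∈ range (a * d + 1), hgt x c : ℕ) : ℤ)
        - ((∑ c ∈ range (a * d + 1), Bht a b i c : ℕ) : ℤ) := by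
    push_cast
    rw [← sum_sub_distrib]
    refine sum_congr rfl fun c hc => ?_
    rw [mem_range] at hc
    rw [Nat.cast_sub (hB c (by omega))]
  rw [e2]
  simp only [bht_eq ha hab]
  rw [sum_add_distrib, sum_mult ha hi, sum_hgt, sum_cl ha hb]
  push_cast
  have e3 : ∀ u : Fin (b * d), ((a * d - (x u : ℕ) : ℕ) : ℤ) = (a : ℤ) * d - (x u : ℕ) := by
    intro u
    rw [Nat.cast_sub (x u).isLt.le]
    push_cast
    rfl
  have e4 : ∀ u : Fin (b * d), ((a * d - a * (u : ℕ) / b : ℕ) : ℤ)
      = (a : ℤ) * d - ((a * (u : ℕ) / b : ℕ) : ℤ) := by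
    intro u
    rw [Nat.cast_sub]
    · push_cast
      rfl
    · apply Nat.div_le_of_le_mul
      have := u.isLt
      calc a * (u : ℕ) ≤ a * (b * d) := Nat.mul_le_mul_left _ this.le
        _ = b * (a * d) := by ring
  simp only [e3, e4]
  simp only [sum_sub_distrib]
  push_cast
  ring

end cond

section weight

variable {K : Type*} [Field K]

/-- the ranks of the two ends of a column -/
lemma rk_iff {m n : ℕ} (hm : 0 < m) {c h h' k : ℕ} (h1 : n * c ≤ m * h) (h2 : n * c ≤ m * h') :
    rk m n c h' = rk m n c h + (m + 1) * m * k ↔ h' = h + k := by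
  unfold rk
  obtain ⟨e, he⟩ := Nat.exists_eq_add_of_le h1
  obtain ⟨e', he'⟩ := Nat.exists_eq_add_of_le h2
  rw [he, he', Nat.add_sub_cancel_left, Nat.add_sub_cancel_left]
  constructor
  · intro h3
    have h4 : (m + 1) * e' = (m + 1) * (e + m * k) := by
      rw [Nat.mul_add]
      have : (m + 1) * m * k = (m + 1) * (m * k) := by ring
      omega
    have h5 := Nat.eq_of_mul_eq_mul_left (Nat.succ_pos m) h4
    have h6 : m * h' = m * (h + k) := by
      rw [he', h5, Nat.mul_add, he]
      ring
    exact Nat.eq_of_mul_eq_mul_left hm h6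
  · intro h3
    subst h3
    have h4 : e' = e + m * k := by
      rw [Nat.mul_add, he] at he'
      omega
    rw [h4]
    ring

/-- the product of the labels -/
lemma prod_labels {m n N : ℕ} {x : Fin n → Fin m} {w : Fin n → Fin N} (h : IsLab x w) :
    ∏ i, (MvPolynomial.X (w i) : MvPolynomial (Fin N) K)
      = ∏ α : Fin N, MvPolynomial.X α ^ (colsOf x w α).card := by
  rw [← Finset.prod_fiberwise_of_maps_to (s := univ) (t := univ) (g := w) (fun i _ => mem_univ _)]
  refine prod_congr rfl fun α _ => ?_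
  have e1 : ∏ i ∈ univ.filter (fun i => w i = α), (MvPolynomial.X (w i) : MvPolynomial (Fin N) K)
      = ∏ i ∈ univ.filter (fun i => w i = α), MvPolynomial.X α := by
    refine prod_congr rfl fun i hi => ?_
    rw [(mem_filter.mp hi).2]
  rw [e1, prod_const]
  congr 1
  have e2 : colsOf x w α = (univ.filter (fun i => w i = α)).image x := by
    ext c
    rw [mem_colsOf, mem_image]
    constructor
    · rintro ⟨i, h1, h2⟩
      exact ⟨i, mem_filter.mpr ⟨mem_univ _, h2⟩, h1⟩
    · rintro ⟨i, h1, h2⟩
      exact ⟨i, h2, (mem_filter.mp h1).2⟩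
  rw [e2, card_image_of_injOn]
  intro i hi j hj hij
  rw [mem_coe, mem_filter] at hi hj
  by_contra hne
  rcases lt_or_gt_of_ne hne with h1 | h1
  · exact absurd (hi.2.trans hj.2.symm) (h.2 i j h1 hij).ne
  · exact absurd (hi.2.trans hj.2.symm) (h.2 j i h1 hij.symm).ne'

/-- the weight of a labelled path, through the chain -/
lemma wt_eq (q t : K) {a b d i N : ℕ} (ha : 0 < a) (hb : 0 < b)
    (hab : Nat.Coprime a b) (hi : i < d) [NeZero (b * d)]
    (hstat : ∀ (x : Fin (b * d) → Fin (a * d)) (w : Fin (b * d) → Fin N), Monotone x →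
      (∀ i j, i < j → x i = x j → w i < w j) →
      (∀ i : Fin (b * d), (b * d) * (x i : ℕ) ≤ (a * d) * i) →
      ((∑ α : Fin N, cstat ((a * d + 1) * (a * d))
        (cbef ((a * d + 1) * (a * d)) (fun c : Fin (a * d) => rk (a * d) (b * d) c (hgt x c))
          (colsOf x w) α) (colsOf x w α) : ℕ) : ℤ) =
      tdinvZ (a * d) (fun i => (x i : ℕ)) w + cst (a * d) (fun i => (x i : ℕ)))
    (hcst : ∀ x : Fin (b * d) → ℕ, Monotone x → (∀ i : Fin (b * d), (b * d) * x i ≤ (a * d) * i) →
      cst (a * d) x = cdinvZ (a * d) x)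
    {x : Fin (b * d) → Fin (a * d)} {w : Fin (b * d) → Fin N} (h : IsLab x w) (hD : IsDyck x)
    (hA : Avoid i x) :
    wt q t (x, w) = MvPolynomial.C (t ^ i) *
      (MvPolynomial.C (t ^ (∑ c : Fin (a * d + 1), (hgt x c - Bht a b i c))) *
        ∏ α : Fin N, (MvPolynomial.C (q ^ cstat ((a * d + 1) * (a * d))
          (cbef ((a * d + 1) * (a * d)) (fun c : Fin (a * d) => rk (a * d) (b * d) c (hgt x c))
            (colsOf x w) α) (colsOf x w α)) * MvPolynomial.X α ^ (colsOf x w α).card)) := by
  have hd : 0 < d := by omega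
  have hm : 0 < a * d := Nat.mul_pos ha hd
  have hdinv : dinv x w = ((∑ α : Fin N, cstat ((a * d + 1) * (a * d))
        (cbef ((a * d + 1) * (a * d)) (fun c : Fin (a * d) => rk (a * d) (b * d) c (hgt x c))
          (colsOf x w) α) (colsOf x w α) : ℕ) : ℤ) := by
    rw [hstat x w h.1 h.2 hD, hcst _ (fun i j hij => h.1 hij) hD, dinv_eq hm]
    unfold dinvZ
    have hneg : negZ (a * d) (fun i => (x i : ℕ)) = 0 := by
      unfold negZ
      rw [card_eq_zero, filter_eq_empty_iff]
      intro u _
      rw [not_lt]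
      unfold lam
      have h1 := hD u
      have h2 : (((b * d) * (x u : ℕ) : ℕ) : ℤ) ≤ (((a * d) * (u : ℕ) : ℕ) : ℤ) := by exact_mod_cast h1
      push_cast at h2 ⊢
      linarith
    rw [hneg]
    push_cast
    ring
  unfold wt
  simp only
  rw [hdinv, area_sum ha hb hab hi h.1 hD hA, zpow_natCast, zpow_natCast, prod_labels h,
    prod_mul_distrib, pow_add, ← prod_pow_eq_pow_sum]
  simp only [map_mul, map_prod]
  ring

end weight

section final

variable {K : Type*} [Field K]

/-- C7a -/
theorem lineSum_eq_of (q t : K) (a b d i N : ℕ) (ha : 0 < a) (hb : 0 < b)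
    (hab : Nat.Coprime a b) (hi : i < d) [NeZero (b * d)]
    (hstat : ∀ (x : Fin (b * d) → Fin (a * d)) (w : Fin (b * d) → Fin N), Monotone x →
      (∀ i j, i < j → x i = x j → w i < w j) →
      (∀ i : Fin (b * d), (b * d) * (x i : ℕ) ≤ (a * d) * i) →
      ((∑ α : Fin N, cstat ((a * d + 1) * (a * d))
        (cbef ((a * d + 1) * (a * d)) (fun c : Fin (a * d) => rk (a * d) (b * d) c (hgt x c))
          (colsOf x w) α) (colsOf x w α) : ℕ) : ℤ) =
      tdinvZ (a * d) (fun i => (x i : ℕ)) w + cst (a * d) (fun i => (x i : ℕ)))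
    (hcst : ∀ x : Fin (b * d) → ℕ, Monotone x → (∀ i : Fin (b * d), (b * d) * x i ≤ (a * d) * i) →
      cst (a * d) x = cdinvZ (a * d) x) :
    MvPolynomial.C (t ^ i) * lineSum q t (a * d) (b * d) N (Bht a b i) =
      ∑ p ∈ (LRD (a * d) (b * d) N).filter (fun p => Avoid i p.1), wt q t p := by
  classical
  have hd : 0 < d := by omega
  have hm : 0 < a * d := Nat.mul_pos ha hd
  unfold lineSum chain
  -- the double sum
  have e1 : ∑ H ∈ Fintype.piFinset (fun _ : Fin (a * d + 1) => range (b * d + 1)),
      (if H 0 = 0 ∧ H (Fin.last (a * d)) = b * d ∧ ∀ x : Fin (a * d + 1), Bht a b i x ≤ H x then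
        MvPolynomial.C (t ^ (∑ x : Fin (a * d + 1), (H x - Bht a b i x))) *
          ∑ S : Fin N → Finset (Fin (a * d)),
            (if ∀ c : Fin (a * d), rk (a * d) (b * d) c (H c.succ) = rk (a * d) (b * d) c (H c.castSucc)
              + (a * d + 1) * (a * d) * (univ.filter (fun β : Fin N => c ∈ S β)).card then
              ∏ α : Fin N, (MvPolynomial.C (q ^ cstat ((a * d + 1) * (a * d))
                (cbef ((a * d + 1) * (a * d))
                  (fun c : Fin (a * d) => rk (a * d) (b * d) c (H c.castSucc)) S α) (S α)) *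
                MvPolynomial.X α ^ (S α).card)
            else 0)
      else 0)
      = ∑ z ∈ (Fintype.piFinset (fun _ : Fin (a * d + 1) => range (b * d + 1)) ×ˢ
          (univ : Finset (Fin N → Finset (Fin (a * d))))).filter (fun z =>
            (z.1 0 = 0 ∧ z.1 (Fin.last (a * d)) = b * d ∧
              ∀ x : Fin (a * d + 1), Bht a b i x ≤ z.1 x) ∧
            ∀ c : Fin (a * d), rk (a * d) (b * d) c (z.1 c.succ)
              = rk (a * d) (b * d) c (z.1 c.castSucc)
              + (a * d + 1) * (a * d) * (univ.filter (fun β : Fin N => c ∈ z.2 β)).card),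
          MvPolynomial.C (t ^ (∑ x : Fin (a * d + 1), (z.1 x - Bht a b i x))) *
            ∏ α : Fin N, (MvPolynomial.C (q ^ cstat ((a * d + 1) * (a * d))
                (cbef ((a * d + 1) * (a * d))
                  (fun c : Fin (a * d) => rk (a * d) (b * d) c (z.1 c.castSucc)) z.2 α) (z.2 α)) *
                MvPolynomial.X α ^ (z.2 α).card) := by
    rw [sum_filter, sum_product]
    refine sum_congr rfl fun H _ => ?_
    by_cases hH : H 0 = 0 ∧ H (Fin.last (a * d)) = b * d ∧
        ∀ x : Fin (a * d + 1), Bht a b i x ≤ H x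
    · rw [if_pos hH, mul_sum]
      refine sum_congr rfl fun S _ => ?_
      by_cases hS : ∀ c : Fin (a * d), rk (a * d) (b * d) c (H c.succ)
          = rk (a * d) (b * d) c (H c.castSucc)
            + (a * d + 1) * (a * d) * (univ.filter (fun β : Fin N => c ∈ S β)).card
      · rw [if_pos hS, if_pos ⟨hH, hS⟩]
      · rw [if_neg hS, if_neg (fun h => hS h.2), mul_zero]
    · rw [if_neg hH]
      symm
      refine sum_eq_zero fun S _ => ?_
      rw [if_neg (fun h => hH h.1)]
  rw [e1, mul_sum]
  symm
  have hmemL : ∀ p : (Fin (b * d) → Fin (a * d)) × (Fin (b * d) → Fin N),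
      p ∈ (LRD (a * d) (b * d) N).filter (fun p => Avoid i p.1) ↔
        IsLab p.1 p.2 ∧ IsDyck p.1 ∧ Avoid i p.1 := by
    intro p
    unfold LRD LRP IsLab
    simp only [mem_filter, mem_univ, true_and]
    tauto
  refine sum_bij (fun p _ => (fun c : Fin (a * d + 1) => hgt p.1 c, colsOf p.1 p.2)) ?_ ?_ ?_ ?_
  · intro p hp
    rw [hmemL] at hp
    obtain ⟨hL, hD, hA⟩ := hp
    have hB := (bht_iff ha hb hab hi hL.1).mpr ⟨hD, hA⟩
    rw [mem_filter, mem_product]
    refine ⟨⟨?_, mem_univ _⟩, ⟨?_, ?_, ?_⟩, ?_⟩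
    · rw [Fintype.mem_piFinset]
      intro c
      rw [mem_range]
      exact Nat.lt_succ_of_le (hgt_le p.1 (c : ℕ))
    · exact hgt_zero p.1
    · simp only [Fin.val_last]
      exact hgt_last p.1
    · intro c
      exact hB c (by omega)
    · intro c
      have h1 := hB c (by omega)
      have h2 := hB (c + 1) (by omega)
      rw [bht_le_iff ha] at h1 h2
      rw [rk_iff hm]
      · simp only [Fin.val_succ, Fin.val_castSucc]
        exact hgt_succ hL c
      · simp only [Fin.val_castSucc]
        calc b * d * (c : ℕ) = d * (b * c) := by ring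
          _ ≤ d * (a * hgt p.1 c) := Nat.mul_le_mul_left _ h1.1
          _ = a * d * hgt p.1 c := by ring
      · simp only [Fin.val_succ]
        calc b * d * (c : ℕ) ≤ b * d * (c + 1) := Nat.mul_le_mul_left _ (Nat.le_succ _)
          _ = d * (b * (c + 1)) := by ring
          _ ≤ d * (a * hgt p.1 (c + 1)) := Nat.mul_le_mul_left _ h2.1
          _ = a * d * hgt p.1 (c + 1) := by ring
  · intro p hp p' hp' he
    rw [hmemL] at hp hp'
    have h1 := congrArg Prod.snd he
    simp only at h1
    have h2 := lab_inj hp.1 hp'.1 h1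
    exact Prod.ext h2.1 h2.2
  · rintro ⟨H, S⟩ hz
    rw [mem_filter, mem_product] at hz
    obtain ⟨-, ⟨h0, hlast, hB⟩, hrk⟩ := hz
    simp only at h0 hlast hB hrk
    -- the heights
    have hBd : ∀ c : Fin (a * d + 1), b * d * (c : ℕ) ≤ a * d * H c := by
      intro c
      have h1 := hB c
      rw [bht_le_iff ha] at h1
      calc b * d * (c : ℕ) = d * (b * c) := by ring
        _ ≤ d * (a * H c) := Nat.mul_le_mul_left _ h1.1
        _ = a * d * H c := by ring
    have hstep : ∀ c : Fin (a * d), H c.succ = H c.castSucc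
        + (univ.filter (fun β : Fin N => c ∈ S β)).card := by
      intro c
      refine (rk_iff hm ?_ ?_).mp (hrk c)
      · exact hBd c.castSucc
      · refine le_trans ?_ (hBd c.succ)
        rw [Fin.val_succ]
        exact Nat.mul_le_mul_left _ (Nat.le_succ _)
    have hsum : ∀ k : ℕ, ∀ hk : k ≤ a * d, H ⟨k, by omega⟩
        = ∑ c : Fin k, (univ.filter (fun β : Fin N => (⟨c, by omega⟩ : Fin (a * d)) ∈ S β)).card := by
      intro k
      induction k with
      | zero =>
        intro _
        simp only [univ_eq_empty, sum_empty]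
        exact h0
      | succ k ih =>
        intro hk
        rw [Fin.sum_univ_castSucc]
        have h1 := hstep ⟨k, by omega⟩
        have h2 := ih (by omega)
        simp only [Fin.succ_mk, Fin.castSucc_mk] at h1
        rw [h1, h2]
        rfl
    have hS : ∑ c : Fin (a * d), (univ.filter (fun β : Fin N => c ∈ S β)).card = b * d := by
      rw [← hlast]
      exact (hsum (a * d) le_rfl).symm
    obtain ⟨x, w, hL, hc⟩ := exists_lab S hS
    have hH : ∀ k : ℕ, ∀ hk : k ≤ a * d, hgt x k = H ⟨k, by omega⟩ := by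
      intro k
      induction k with
      | zero =>
        intro _
        rw [hgt_zero]
        exact h0.symm
      | succ k ih =>
        intro hk
        have h1 := hstep ⟨k, by omega⟩
        have h2 := hgt_succ hL ⟨k, by omega⟩
        simp only [Fin.succ_mk, Fin.castSucc_mk] at h1
        rw [hc] at h2
        simp only at h2
        rw [h1, h2, ih (by omega)]
    refine ⟨(x, w), ?_, ?_⟩
    · rw [hmemL]
      refine ⟨hL, ?_⟩
      rw [← bht_iff ha hb hab hi hL.1]
      intro c hc
      rw [hH c hc]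
      exact hB ⟨c, by omega⟩
    · simp only [Prod.mk.injEq]
      refine ⟨?_, hc⟩
      funext c
      exact hH c (by omega)
  · intro p hp
    rw [hmemL] at hp
    exact wt_eq q t ha hb hab hi hstat hcst hp.1 hp.2.1 hp.2.2

end final

end Pool.Agent.Lib.MP_0e7911_co_h93
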